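import Pool.Agent.D0H10.PS.Basic

/-! # Almost sure convergence -/

set_option autoImplicit false

open scoped Classical

namespace Pool.Agent.D0H98.PS

open Pool.Agent.D0H10.PS MeasureTheory ProbabilityTheory Filter Finset

lemma ae_zero {Ω : Type} [MeasurableSpace Ω] {P : Measure Ω} (f : ℕ → Ω → ℝ)
    (h0 : ∀ k ω, 0 ≤ f k ω) (hi : ∀ k, Integrable (f k) P) (b : ℕ → ℝ) (hb : Summable b)
    (h : ∀ k, ∫ ω, f k ω ∂P ≤ b k) : ∀ᵐ ω ∂P, Tendsto (fun k => f k ω) atTop (nhds 0) := by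
  have hb0 : ∀ k, 0 ≤ b k := fun k => (integral_nonneg (h0 k)).trans (h k)
  have h1 : ∫⁻ ω, ∑' k, ENNReal.ofReal (f k ω) ∂P ≠ ⊤ := by
    rw [lintegral_tsum (fun k => (hi k).1.aemeasurable.ennreal_ofReal)]
    have h2 : ∀ k, ∫⁻ ω, ENNReal.ofReal (f k ω) ∂P ≤ ENNReal.ofReal (b k) := by
      intro k
      rw [← ofReal_integral_eq_lintegral_ofReal (hi k) (ae_of_all _ (h0 k))]
      exact ENNReal.ofReal_le_ofReal (h k)
    refine ne_top_of_le_ne_top ?_ (ENNReal.tsum_le_tsum h2)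
    rw [← ENNReal.ofReal_tsum_of_nonneg hb0 hb]
    exact ENNReal.ofReal_ne_top
  have hm : AEMeasurable (fun ω => ∑' k, ENNReal.ofReal (f k ω)) P :=
    AEMeasurable.ennreal_tsum fun k => (hi k).1.aemeasurable.ennreal_ofReal
  filter_upwards [ae_lt_top' hm h1] with ω hω
  have h3 := ENNReal.tendsto_atTop_zero_of_tsum_ne_top hω.ne
  have h4 := (ENNReal.tendsto_toReal ENNReal.zero_ne_top).comp h3
  refine h4.congr' (Eventually.of_forall fun k => ?_)
  simp only [Function.comp]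
  rw [ENNReal.toReal_ofReal (h0 k ω)]

theorem as (hM : S_MOM) (hD : S_DET) : S_AS := by
  intro Ω _ P _ ξ t c hb hc hs w hw
  have hpos : ∀ k, 0 < 2 ^ k * t k := fun k => mul_pos (by positivity) (hb.pos k).1
  have ht : Tendsto (fun k => 2 ^ k * t k) atTop atTop := by
    have h1 := hs.tendsto_atTop_zero
    have h2 : Tendsto (fun k => 1 / (2 ^ k * t k)) atTop (nhdsWithin 0 (Set.Ioi 0)) :=
      tendsto_nhdsWithin_iff.2 ⟨h1, Eventually.of_forall fun k => one_div_pos.2 (hpos k)⟩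
    refine h2.inv_tendsto_nhdsGT_zero.congr fun k => ?_
    simp
  obtain ⟨B, k0, hB, hmom⟩ := hM Ω P ξ t c hb hc ht
  have key : ∀ s j : ℕ, 1 ≤ s → j ≤ 2 ^ s → ∀ᵐ ω ∂P, Tendsto (fun k : ℕ =>
      (∑ n ∈ Ico (2 ^ k + 2 ^ (k - s)) (2 ^ k + j * 2 ^ (k - s)), w n * sg (c n (bits ξ ω))) /
        (2 : ℝ) ^ k) atTop (nhds 0) := by
    intro s j _ hj
    set F : ℕ → Ω → ℝ := fun k ω =>
      (∑ n ∈ Ico (2 ^ k + 2 ^ (k - s)) (2 ^ k + j * 2 ^ (k - s)), w n * sg (c n (bits ξ ω))) /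
        (2 : ℝ) ^ k with hF
    have hb1 : Summable (fun k : ℕ => 1 / (2 : ℝ) ^ (k + (s + k0)) +
        2 ^ (s + 1) * B * (1 / (2 ^ (k + (s + k0)) * t (k + (s + k0))))) := by
      refine Summable.add ?_ ?_
      · have h1 : Summable (fun k : ℕ => 1 / (2 : ℝ) ^ k) := by
          simpa using summable_geometric_two
        exact (summable_nat_add_iff (s + k0)).2 h1
      · exact ((summable_nat_add_iff (s + k0)).2 hs).mul_left _
    have hIk : ∀ k, ∀ n ∈ Ico (2 ^ (k + (s + k0)) + 2 ^ (k + (s + k0) - s))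
        (2 ^ (k + (s + k0)) + j * 2 ^ (k + (s + k0) - s)),
        2 ^ (k + (s + k0)) + 2 ^ (k + (s + k0) - s) ≤ n ∧ n < 2 ^ (k + (s + k0) + 1) := by
      intro k n hn
      rw [mem_Ico] at hn
      refine ⟨hn.1, lt_of_lt_of_le hn.2 ?_⟩
      have h1 : j * 2 ^ (k + (s + k0) - s) ≤ 2 ^ s * 2 ^ (k + (s + k0) - s) :=
        Nat.mul_le_mul_right _ hj
      have h2 : 2 ^ s * 2 ^ (k + (s + k0) - s) = 2 ^ (k + (s + k0)) := by
        rw [← pow_add]
        congr 1
        omega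
      rw [h2] at h1
      rw [pow_succ 2 (k + (s + k0))]
      omega
    have hae := ae_zero (P := P) (fun k ω => (F (k + (s + k0)) ω) ^ 2) (fun k ω => sq_nonneg _)
      (fun k => by
        have h1 := (hmom s (k + (s + k0)) (by omega) (by omega) w hw _ (hIk k)).1
        refine (h1.div_const ((2 ^ (k + (s + k0))) ^ 2)).congr (ae_of_all _ fun ω => ?_)
        simp only [hF]
        rw [div_pow]) _ hb1 (fun k => by
        have h1 := (hmom s (k + (s + k0)) (by omega) (by omega) w hw _ (hIk k)).2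
        have e1 : (fun ω => (F (k + (s + k0)) ω) ^ 2) = fun ω =>
            (∑ n ∈ Ico (2 ^ (k + (s + k0)) + 2 ^ (k + (s + k0) - s))
              (2 ^ (k + (s + k0)) + j * 2 ^ (k + (s + k0) - s)),
              w n * sg (c n (bits ξ ω))) ^ 2 / (4 : ℝ) ^ (k + (s + k0)) := by
          funext ω
          simp only [hF]
          rw [div_pow, ← pow_mul, mul_comm (k + (s + k0)) 2, pow_mul]
          norm_num
        rw [e1, integral_div, div_le_iff₀ (by positivity)]
        refine h1.trans (le_of_eq ?_)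
        rw [mul_comm]
        congr 1
        rw [mul_one_div])
    filter_upwards [hae] with ω hω
    have h5 : Tendsto (fun k => F (k + (s + k0)) ω) atTop (nhds 0) := by
      have h6 : Tendsto (fun k => |F (k + (s + k0)) ω|) atTop (nhds 0) := by
        have := hω.sqrt
        simp only [Real.sqrt_zero] at this
        refine this.congr fun k => ?_
        rw [Real.sqrt_sq_eq_abs]
      exact (tendsto_zero_iff_abs_tendsto_zero _).2 h6
    exact (tendsto_add_atTop_iff_nat (s + k0)).1 h5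
  have all : ∀ᵐ ω ∂P, ∀ s j : ℕ, 1 ≤ s → j ≤ 2 ^ s → Tendsto (fun k : ℕ =>
      (∑ n ∈ Ico (2 ^ k + 2 ^ (k - s)) (2 ^ k + j * 2 ^ (k - s)), w n * sg (c n (bits ξ ω))) /
        (2 : ℝ) ^ k) atTop (nhds 0) := by
    rw [ae_all_iff]; intro s
    rw [ae_all_iff]; intro j
    by_cases h1 : 1 ≤ s
    · by_cases h2 : j ≤ 2 ^ s
      · filter_upwards [key s j h1 h2] with ω hω _ _ using hω
      · exact ae_of_all _ fun ω _ h => absurd h h2
    · exact ae_of_all _ fun ω h => absurd h h1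
  filter_upwards [all] with ω hω
  refine hD _ (fun n => ?_) hω
  rw [abs_mul, abs_sg, mul_one]
  exact hw n

end Pool.Agent.D0H98.PS
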