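import Pool.Agent.D0H98.PS.Fub

/-! # Second moments of the signed sums over parts of the dyadic blocks -/

set_option autoImplicit false

open scoped Classical

namespace Pool.Agent.D0H98.PS

open Pool.Agent.D0H10.PS MeasureTheory ProbabilityTheory Filter Finset

section

variable {c : ℕ → (ℕ → ZMod 2) → ZMod 2}

/-- the number of ones below `X` -/
noncomputable def Nn (c : ℕ → (ℕ → ZMod 2) → ZMod 2) (X : ℕ) (u : ℕ → ZMod 2) : ℕ :=
  cnt (fun j => c j u) X

lemma cut_eq {x : ℕ} {j : ℕ} (u : ℕ → ZMod 2) (h : j < x) : cut x u j = u j := if_pos h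

lemma c_cut (hc : Lin c) {x n : ℕ} (u : ℕ → ZMod 2) (h : n < x) : c n (cut x u) = c n u :=
  hc.loc n _ _ fun j hj => cut_eq u (lt_of_le_of_lt hj h)

lemma Nn_cut (hc : Lin c) {x X : ℕ} (u : ℕ → ZMod 2) (h : X ≤ x) : Nn c X (cut x u) = Nn c X u := by
  unfold Nn cnt
  congr 1
  refine filter_congr fun j hj => ?_
  simp only
  rw [c_cut hc u (lt_of_lt_of_le (mem_range.1 hj) h)]

lemma Nn_pos (hc : Lin c) {X : ℕ} (hX : 0 < X) (u : ℕ → ZMod 2) : 0 < Nn c X u :=
  cnt_pos (hc.zero u) hX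

lemma Nn_mono {X Y : ℕ} (h : X ≤ Y) (u : ℕ → ZMod 2) : Nn c X u ≤ Nn c Y u := cnt_mono _ h

/-- the sequence is an affine form in the bits of the block -/
lemma lin_c (hc : Lin c) {x n : ℕ} (u : ℕ → ZMod 2) (hn : n < x) :
    lin (x := x) (fun j => c j (cut x u)) (fun j => c (x + j) (cut x u)) (fun i => u (x + i)) n =
      c (x + n) u := by
  rw [hc.lin x (x + n) u (by omega) (by omega)]
  unfold lin
  congr 1
  rw [Fin.sum_univ_eq_sum_range
    (fun i => if i ≤ n then c (n - i) (cut x u) * u (x + i) else 0) x, ← sum_filter]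
  refine sum_bij' (fun i _ => x + i) (fun a _ => a - x) ?_ ?_ ?_ ?_ ?_
  · intro i hi
    rw [mem_filter, mem_range] at hi
    rw [mem_Icc]; omega
  · intro a ha
    rw [mem_Icc] at ha
    rw [mem_filter, mem_range]; omega
  · intro i _
    omega
  · intro a ha
    rw [mem_Icc] at ha
    omega
  · intro i hi
    rw [mem_filter, mem_range] at hi
    rw [c_cut hc u (by omega), show x + n - (x + i) = n - i by omega]

/-- not a bad block: the number of ones grows -/
lemma grow_det (hc : Lin c) {y : ℕ} (hy : 0 < y) (u : ℕ → ZMod 2)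
    (hb : ¬ Bad y (fun j => c j (cut (2 * y) u)) (fun j => c (2 * y + j) (cut (2 * y) u))
      (fun i => u (2 * y + i))) :
    min (64 * (Nn c y u : ℝ)) ((y : ℝ) / 8) ≤ Nn c (4 * y) u := by
  unfold Bad at hb
  rw [not_lt] at hb
  have h1 : (cnt (fun j => c j (cut (2 * y) u)) y : ℝ) = Nn c y u := by
    rw [← Nn_cut hc u (show y ≤ 2 * y by omega)]
    rfl
  rw [h1] at hb
  refine hb.trans ?_
  rw [Nat.cast_le]
  unfold Nn cnt
  refine card_le_card_of_injOn (fun n => 2 * y + n) ?_ ?_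
  · intro n hn
    simp only [coe_filter, mem_Ico, Set.mem_ofPred_eq] at hn
    simp only [coe_filter, mem_range, Set.mem_ofPred_eq]
    refine ⟨by omega, ?_⟩
    rw [← lin_c hc u (x := 2 * y) (n := n) (by omega)]
    exact hn.2
  · intro a _ b _ hab
    simp only at hab
    omega

end

section

variable {Ω : Type} [MeasurableSpace Ω] {P : Measure Ω} [IsProbabilityMeasure P]
  {ξ : ℕ → Ω → ZMod 2} {t : ℕ → ℝ} {c : ℕ → (ℕ → ZMod 2) → ZMod 2}

/-- the expectation of the inverse of the number of ones -/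
noncomputable def inv (P : Measure Ω) (ξ : ℕ → Ω → ZMod 2) (c : ℕ → (ℕ → ZMod 2) → ZMod 2)
    (X : ℕ) : ℝ := ∫ ω, 1 / (Nn c X (bits ξ ω) : ℝ) ∂P

lemma inv_int (hb : Bits P ξ t) (hc : Lin c) (X : ℕ) :
    Integrable (fun ω => 1 / (Nn c X (bits ξ ω) : ℝ)) P := by
  have h := (fub Ω P ξ hb.meas hb.ind X (fun u _ => 1 / (Nn c X u : ℝ))).1
  refine h.congr (ae_of_all _ fun ω => ?_)
  simp only [Nn_cut hc _ le_rfl]

lemma inv_le_one (hb : Bits P ξ t) (hc : Lin c) {X : ℕ} (hX : 0 < X) : inv P ξ c X ≤ 1 := by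
  unfold inv
  calc ∫ ω, 1 / (Nn c X (bits ξ ω) : ℝ) ∂P ≤ ∫ _, (1 : ℝ) ∂P := by
        refine integral_mono (inv_int hb hc X) (integrable_const _) fun ω => ?_
        simp only
        rw [div_le_one (by exact_mod_cast Nn_pos hc hX _)]
        exact_mod_cast Nn_pos hc hX _
    _ = 1 := by simp

lemma step (hG : S_GROW) (hb : Bits P ξ t) (hc : Lin c) {m : ℕ}
    (hr : ∀ a, 2 ^ (m + 1) ≤ a → a < 2 ^ (m + 1 + 1) →
      t (m + 1) ≤ P.real {ω | ξ a ω = 1} ∧ P.real {ω | ξ a ω = 1} ≤ 1 - t (m + 1))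
    (hm : 250 ≤ 2 ^ m)
    (ht : 4 * 10 ^ 10 ≤ t (m + 1) * 2 ^ (m + 1)) :
    inv P ξ c (2 ^ (m + 2)) ≤ 1 / 32 * inv P ξ c (2 ^ m) + 8 / 2 ^ m := by
  set y : ℕ := 2 ^ m with hy
  have hy0 : 0 < y := by omega
  have hyr : (y : ℝ) = 2 ^ m := by rw [hy]; push_cast; rfl
  have e4 : 2 ^ (m + 2) = 4 * y := by rw [hy, pow_add]; ring
  set p : Fin (2 * y) → ℝ := fun i => P.real {ω | ξ (2 * y + i) ω = 1} with hp
  have hpt : ∀ i, t (m + 1) ≤ p i ∧ p i ≤ 1 - t (m + 1) := by
    intro i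
    have e : 2 ^ (m + 1) = 2 * y := by rw [hy, pow_succ]; ring
    refine hr (2 * y + i) (by omega) ?_
    have := i.2
    have e' : 2 ^ (m + 1 + 1) = 4 * y := by rw [← e4]
    omega
  have hpos := hb.pos (m + 1)
  have hp01 : ∀ i, 0 ≤ p i ∧ p i ≤ 1 := fun i => ⟨by linarith [(hpt i).1], by linarith [(hpt i).2]⟩
  set Φ : (ℕ → ZMod 2) → (Fin (2 * y) → ZMod 2) → ℝ := fun u v =>
    if Nn c (2 * y) u ≤ 64 * Nn c y u then (1 / (Nn c y u : ℝ)) *
      (if Bad y (fun j => c j u) (fun j => c (2 * y + j) u) v then 1 else 0) else 0 with hΦ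
  obtain ⟨i1, i2, i3⟩ := fub Ω P ξ hb.meas hb.ind (2 * y) Φ
  have hEx : ∀ u, Ex p (Φ u) ≤ 1 / 64 * (1 / (Nn c y u : ℝ)) := by
    intro u
    have hN : (0 : ℝ) ≤ 1 / (Nn c y u : ℝ) := by positivity
    by_cases h : Nn c (2 * y) u ≤ 64 * Nn c y u
    · have e : Φ u = fun v => (1 / (Nn c y u : ℝ)) *
          (if Bad y (fun j => c j u) (fun j => c (2 * y + j) u) v then 1 else 0) := by
        funext v
        simp only [hΦ, if_pos h]
      rw [e, Ex_mul, mul_comm (1 / 64 : ℝ)]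
      refine mul_le_mul_of_nonneg_left ?_ hN
      refine hG y (t (m + 1)) p (fun j => c j u) (fun j => c (2 * y + j) u) hm ?_ hpos.2 hpt
        (hc.zero u) h
      rw [hyr, ← pow_succ']
      exact ht
    · have e : Φ u = fun _ => 0 := by
        funext v
        simp only [hΦ, if_neg h]
      rw [e, Ex_const]
      positivity
  have hpt2 : ∀ ω, 1 / (Nn c (4 * y) (bits ξ ω) : ℝ) ≤ 1 / 64 * (1 / (Nn c y (bits ξ ω) : ℝ)) +
      8 / (y : ℝ) + Φ (cut (2 * y) (bits ξ ω)) (fun i => ξ (2 * y + i) ω) := by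
    intro ω
    set u := bits ξ ω with hu
    have hN : (0 : ℝ) < (Nn c y u : ℝ) := by exact_mod_cast Nn_pos hc hy0 u
    have hN4 : (0 : ℝ) < (Nn c (4 * y) u : ℝ) := by exact_mod_cast Nn_pos hc (by omega) u
    have hyp : (0 : ℝ) < (y : ℝ) := by exact_mod_cast hy0
    have hΦ0 : 0 ≤ Φ (cut (2 * y) u) (fun i => ξ (2 * y + i) ω) := by
      simp only [hΦ]
      split_ifs <;> positivity
    by_cases h : Nn c (2 * y) u ≤ 64 * Nn c y u
    · by_cases hbad : Bad y (fun j => c j (cut (2 * y) u)) (fun j => c (2 * y + j) (cut (2 * y) u))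
        (fun i => u (2 * y + i))
      · have e : Φ (cut (2 * y) u) (fun i => ξ (2 * y + i) ω) = 1 / (Nn c y u : ℝ) := by
          simp only [hΦ]
          rw [Nn_cut hc u le_rfl, Nn_cut hc u (show y ≤ 2 * y by omega), if_pos h]
          rw [if_pos (by exact hbad), mul_one]
        rw [e]
        have h1 : 1 / (Nn c (4 * y) u : ℝ) ≤ 1 / (Nn c y u : ℝ) :=
          one_div_le_one_div_of_le hN (by exact_mod_cast Nn_mono (by omega) u)
        have h2 : (0 : ℝ) ≤ 1 / 64 * (1 / (Nn c y u : ℝ)) + 8 / (y : ℝ) := by positivity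
        linarith only [h1, h2]
      · have h1 := grow_det hc hy0 u hbad
        rcases le_total (64 * (Nn c y u : ℝ)) ((y : ℝ) / 8) with h2 | h2
        · rw [min_eq_left h2] at h1
          have h3 : 1 / (Nn c (4 * y) u : ℝ) ≤ 1 / (64 * (Nn c y u : ℝ)) :=
            one_div_le_one_div_of_le (by positivity) h1
          have h4 : 1 / (64 * (Nn c y u : ℝ)) = 1 / 64 * (1 / (Nn c y u : ℝ)) := by
            rw [one_div_mul_one_div]
          have h5 : 0 ≤ 8 / (y : ℝ) := by positivity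
          linarith only [h3, h4, h5, hΦ0]
        · rw [min_eq_right h2] at h1
          have h3 : 1 / (Nn c (4 * y) u : ℝ) ≤ 1 / ((y : ℝ) / 8) :=
            one_div_le_one_div_of_le (by positivity) h1
          have h4 : 1 / ((y : ℝ) / 8) = 8 / (y : ℝ) := by rw [one_div_div]
          have h5 : (0 : ℝ) ≤ 1 / 64 * (1 / (Nn c y u : ℝ)) := by positivity
          linarith only [h3, h4, h5, hΦ0]
    · rw [not_le] at h
      have h1 : 64 * (Nn c y u : ℝ) ≤ (Nn c (4 * y) u : ℝ) := by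
        have := Nn_mono (c := c) (show 2 * y ≤ 4 * y by omega) u
        exact_mod_cast (h.le.trans this)
      have h3 : 1 / (Nn c (4 * y) u : ℝ) ≤ 1 / (64 * (Nn c y u : ℝ)) :=
        one_div_le_one_div_of_le (by positivity) h1
      have h4 : 1 / (64 * (Nn c y u : ℝ)) = 1 / 64 * (1 / (Nn c y u : ℝ)) := by
        rw [one_div_mul_one_div]
      have h5 : 0 ≤ 8 / (y : ℝ) := by positivity
      linarith only [h3, h4, h5, hΦ0]
  have j1 := inv_int hb hc (4 * y)
  have j2 := inv_int hb hc y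
  have k1 : inv P ξ c (4 * y) ≤ 1 / 64 * inv P ξ c y + 8 / (y : ℝ) +
      ∫ ω, Φ (cut (2 * y) (bits ξ ω)) (fun i => ξ (2 * y + i) ω) ∂P := by
    unfold inv
    refine (integral_mono j1 (((j2.const_mul (1 / 64)).add (integrable_const (8 / (y : ℝ)))).add i1)
      hpt2).trans (le_of_eq ?_)
    rw [integral_add' ((j2.const_mul (1 / 64)).add (integrable_const (8 / (y : ℝ)))) i1,
      integral_add' (j2.const_mul (1 / 64)) (integrable_const (8 / (y : ℝ))),
      integral_const_mul]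
    simp
  have k2 : ∫ ω, Φ (cut (2 * y) (bits ξ ω)) (fun i => ξ (2 * y + i) ω) ∂P ≤
      1 / 64 * inv P ξ c y := by
    rw [i3]
    unfold inv
    rw [← integral_const_mul]
    refine integral_mono i2 (j2.const_mul (1 / 64)) fun ω => ?_
    simp only
    refine (hEx _).trans (le_of_eq ?_)
    rw [Nn_cut hc _ (show y ≤ 2 * y by omega)]
  rw [e4, ← hyr]
  linarith only [k1, k2]

lemma inv_bound (hG : S_GROW) (hb : Bits P ξ t) (hc : Lin c)
    (ht : Tendsto (fun k => 2 ^ k * t k) atTop atTop) :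
    ∃ B : ℝ, 0 < B ∧ ∀ m, inv P ξ c (2 ^ m) ≤ B / 2 ^ m := by
  obtain ⟨m0, hm0⟩ := (tendsto_atTop.1 ht (4 * 10 ^ 10)).exists_forall_of_atTop
  obtain ⟨k0, hk0⟩ := hb.rate
  set M := m0 + 8 + k0 with hM
  refine ⟨2 ^ (M + 1) + 64, by positivity, ?_⟩
  intro m
  induction m using Nat.strong_induction_on with
  | _ m ih =>
    rw [le_div_iff₀ (by positivity)]
    rcases Nat.lt_or_ge m (M + 2) with h | h
    · have h1 := inv_le_one hb hc (X := 2 ^ m) (by positivity)
      have h2 : (2 : ℝ) ^ m ≤ 2 ^ (M + 1) := pow_le_pow_right₀ (by norm_num) (by omega)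
      calc inv P ξ c (2 ^ m) * 2 ^ m ≤ 1 * 2 ^ m := by gcongr
        _ ≤ _ := by linarith
    · obtain ⟨n, rfl⟩ : ∃ n, m = n + 2 := ⟨m - 2, by omega⟩
      have h250 : 250 ≤ 2 ^ n := by
        have : 2 ^ 8 ≤ 2 ^ n := Nat.pow_le_pow_right (by norm_num) (by omega)
        omega
      have h1 := step (t := t) hG hb hc (fun a => hk0 (n + 1) a (by omega)) h250 (by
        have := hm0 (n + 1) (by omega)
        rw [mul_comm (2 ^ (n + 1)) (t (n + 1))] at this; exact this)
      have h2 := ih n (by omega)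
      rw [le_div_iff₀ (by positivity)] at h2
      have h3 : (2 : ℝ) ^ (n + 2) = 4 * 2 ^ n := by rw [pow_add]; ring
      have h4 : (0 : ℝ) < 2 ^ n := by positivity
      have h5 : (0 : ℝ) ≤ 2 ^ (M + 1) := by positivity
      rw [h3]
      calc inv P ξ c (2 ^ (n + 2)) * (4 * 2 ^ n) ≤
          (1 / 32 * inv P ξ c (2 ^ n) + 8 / 2 ^ n) * (4 * 2 ^ n) := by gcongr
        _ = 1 / 8 * (inv P ξ c (2 ^ n) * 2 ^ n) + 32 := by field_simp; ring
        _ ≤ _ := by linarith

theorem mom (hP : S_PAIR) (hG : S_GROW) : S_MOM := by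
  intro Ω _ P _ ξ t c hb hc ht
  obtain ⟨B, hB, hinv⟩ := inv_bound hG hb hc ht
  obtain ⟨k0, hk0⟩ := hb.rate
  refine ⟨B, k0, hB, ?_⟩
  intro s k hs hk w hw I hI
  set x : ℕ := 2 ^ k with hx
  have hx0 : 0 < x := by positivity
  have hxr : (x : ℝ) = 2 ^ k := by rw [hx]; push_cast; rfl
  have hI' : ∀ n ∈ I, x ≤ n ∧ n < 2 * x := by
    intro n hn
    have := hI n hn
    have e : 2 ^ (k + 1) = 2 * x := by rw [hx, pow_succ]; ring
    have e0 : 0 < 2 ^ (k - s) := by positivity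
    generalize 2 ^ (k - s) = g at this e0
    omega
  set p : Fin x → ℝ := fun i => P.real {ω | ξ (x + i) ω = 1} with hp
  have hpt : ∀ i, t k ≤ p i ∧ p i ≤ 1 - t k := by
    intro i
    refine hk0 k (x + i) hk (by omega) ?_
    have := i.2
    have e' : 2 ^ (k + 1) = 2 * x := by rw [hx, pow_succ]; ring
    omega
  have hpos := hb.pos k
  set X : ℕ := 2 ^ (k - s) with hX
  have hX0 : 0 < X := by positivity
  have hXx : X ≤ x := Nat.pow_le_pow_right (by norm_num) (Nat.sub_le k s)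
  set J : Finset ℕ := I.image (fun n => n - x) with hJ
  have hinj : Set.InjOn (fun n => n - x) (I : Set ℕ) := by
    intro a ha b hb' hab
    have h1 := hI' a (mem_coe.1 ha)
    have h2 := hI' b (mem_coe.1 hb')
    simp only at hab
    omega
  have hJc : J.card ≤ x := by
    have : J ⊆ range x := by
      intro j hj
      rw [hJ, mem_image] at hj
      obtain ⟨n, hn, rfl⟩ := hj
      have := hI' n hn
      rw [mem_range]; omega
    simpa using card_le_card this
  set Φ : (ℕ → ZMod 2) → (Fin x → ZMod 2) → ℝ := fun u v =>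
    (∑ n ∈ J, w (x + n) * sg (lin (fun j => c j u) (fun j => c (x + j) u) v n)) ^ 2 with hΦ
  obtain ⟨i1, i2, i3⟩ := fub Ω P ξ hb.meas hb.ind x Φ
  have e : ∀ ω, Φ (cut x (bits ξ ω)) (fun i => ξ (x + i) ω) =
      (∑ n ∈ I, w n * sg (c n (bits ξ ω))) ^ 2 := by
    intro ω
    simp only [hΦ]
    congr 1
    rw [hJ, sum_image hinj]
    refine sum_congr rfl fun n hn => ?_
    have h1 := hI' n hn
    have h2 := lin_c hc (bits ξ ω) (x := x) (n := n - x) (by omega)
    rw [show x + (n - x) = n by omega] at h2 ⊢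
    rw [← h2]
    rfl
  have e' : (fun ω => Φ (cut x (bits ξ ω)) (fun i => ξ (x + i) ω)) =
      fun ω => (∑ n ∈ I, w n * sg (c n (bits ξ ω))) ^ 2 := funext e
  rw [e'] at i1 i3
  refine ⟨i1, ?_⟩
  rw [i3]
  have hEx : ∀ ω, Ex p (Φ (cut x (bits ξ ω))) ≤
      (x : ℝ) + 2 * x * x / t k * (1 / (Nn c X (bits ξ ω) : ℝ)) := by
    intro ω
    set u := bits ξ ω with hu
    have h1 := hP x X (t k) p (fun j => c j (cut x u)) (fun j => c (x + j) (cut x u))
      (fun n => w (x + n)) J hX0 hXx hpos.1 hpos.2 hpt (hc.zero _) (by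
        intro n hn
        rw [hJ, mem_image] at hn
        obtain ⟨m, hm, rfl⟩ := hn
        have := hI m hm
        have h2 := hI' m hm
        omega) (fun n => hw _)
    refine h1.trans ?_
    have h2 : (cnt (fun j => c j (cut x u)) X : ℝ) = Nn c X u := by
      rw [← Nn_cut hc u hXx]
      rfl
    rw [h2]
    have hN : (0 : ℝ) < (Nn c X u : ℝ) := by exact_mod_cast Nn_pos hc hX0 u
    have ht0 := hpos.1
    calc (J.card : ℝ) * (1 + 2 * x / (t k * Nn c X u)) ≤ x * (1 + 2 * x / (t k * Nn c X u)) := by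
          have : (J.card : ℝ) ≤ x := by exact_mod_cast hJc
          gcongr
      _ = _ := by field_simp
  have j2 := inv_int hb hc X
  calc ∫ ω, Ex p (Φ (cut x (bits ξ ω))) ∂P ≤
      ∫ ω, ((x : ℝ) + 2 * x * x / t k * (1 / (Nn c X (bits ξ ω) : ℝ))) ∂P :=
        integral_mono i2 ((integrable_const _).add (j2.const_mul _)) hEx
    _ = (x : ℝ) + 2 * x * x / t k * inv P ξ c X := by
        rw [integral_add (integrable_const _) (j2.const_mul _), integral_const_mul]
        simp [inv]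
    _ ≤ (x : ℝ) + 2 * x * x / t k * (B / 2 ^ (k - s)) := by
        have ht0 := hpos.1
        have := hinv (k - s)
        gcongr
    _ = 4 ^ k * (1 / 2 ^ k + 2 ^ (s + 1) * B / (2 ^ k * t k)) := by
        have ht0 := hpos.1
        have h1 : (2 : ℝ) ^ k = 2 ^ s * 2 ^ (k - s) := by
          rw [← pow_add]; congr 1; omega
        have h2 : (4 : ℝ) ^ k = 2 ^ k * 2 ^ k := by
          rw [← mul_pow]; norm_num
        rw [hxr, h2, pow_succ, h1]
        field_simp

end

end Pool.Agent.D0H98.PS
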