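import Pool.Agent.D0H10.PS.Basic

/-! # Conditioning on the bits below `x` -/

set_option autoImplicit false

open scoped Classical

namespace Pool.Agent.D0H98.PS

open Pool.Agent.D0H10.PS MeasureTheory ProbabilityTheory Filter Finset

section

variable {Ω : Type} [MeasurableSpace Ω] {P : Measure Ω} [IsProbabilityMeasure P]

lemma int_fin {κ : Type} [Fintype κ] [MeasurableSpace κ] [MeasurableSingletonClass κ]
    {T : Ω → κ} (hT : Measurable T) (g : κ → ℝ) :
    Integrable (fun ω => g (T ω)) P ∧
      ∫ ω, g (T ω) ∂P = ∑ k, P.real (T ⁻¹' {k}) * g k := by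
  have hg : Measurable g := measurable_of_finite g
  have hm : IsProbabilityMeasure (P.map T) := Measure.isProbabilityMeasure_map hT.aemeasurable
  have hi : Integrable g (P.map T) := Integrable.of_finite
  refine ⟨hi.comp_measurable hT, ?_⟩
  rw [← integral_map hT.aemeasurable hg.aestronglyMeasurable, integral_fintype hi]
  refine sum_congr rfl fun k _ => ?_
  rw [map_measureReal_apply hT (measurableSet_singleton k), smul_eq_mul]

omit [IsProbabilityMeasure P] in
lemma prob_bits {ξ : ℕ → Ω → ZMod 2} (hi : iIndepFun ξ P)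
    (n : ℕ) (u : ℕ → ZMod 2) :
    P.real {ω | ∀ j < n, ξ j ω = u j} = ∏ j ∈ range n, P.real {ω | ξ j ω = u j} := by
  have h := hi.measure_inter_preimage_eq_mul (range n) (sets := fun j => {u j})
    (fun j _ => measurableSet_singleton _)
  have h2 : (⋂ j ∈ range n, ξ j ⁻¹' {u j}) = {ω | ∀ j < n, ξ j ω = u j} := by
    ext ω; simp
  rw [h2] at h
  unfold Measure.real
  rw [h, ENNReal.toReal_prod]
  rfl

lemma compl_bit {ξ : Ω → ZMod 2} (hξ : Measurable ξ) (z : ZMod 2) :
    P.real {ω | ξ ω = z} = if z = 1 then P.real {ω | ξ ω = 1} else 1 - P.real {ω | ξ ω = 1} := by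
  rcases zmod2 z with rfl | rfl
  · rw [if_neg (by decide)]
    have hm : MeasurableSet {ω | ξ ω = 1} := hξ (measurableSet_singleton 1)
    have h := probReal_compl_eq_one_sub (μ := P) hm
    rw [← h]
    congr 1
    ext ω
    simp only [Set.mem_ofPred_eq, Set.mem_compl_iff]
    rcases zmod2 (ξ ω) with h0 | h0 <;> rw [h0] <;> decide
  · rw [if_pos rfl]

end

/-- extension by zero -/
def ext0 {x : ℕ} (u : Fin x → ZMod 2) : ℕ → ZMod 2 := fun j => if h : j < x then u ⟨j, h⟩ else 0

theorem fub : S_FUB := by
  intro Ω _ P _ ξ hξ hi x Φ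
  set U : Ω → (Fin x → ZMod 2) := fun ω i => ξ i ω with hU
  set V : Ω → (Fin x → ZMod 2) := fun ω i => ξ (x + i) ω with hV
  have hUm : Measurable U := measurable_pi_lambda _ fun i => hξ _
  have hVm : Measurable V := measurable_pi_lambda _ fun i => hξ _
  have hcut : ∀ ω, cut x (bits ξ ω) = ext0 (U ω) := by
    intro ω
    funext j
    unfold cut ext0 bits
    by_cases h : j < x
    · rw [if_pos h, dif_pos h]
    · rw [if_neg h, dif_neg h]
  set p : Fin x → ℝ := fun i => P.real {ω | ξ (x + i) ω = 1} with hp
  have e1 : (fun ω => Φ (cut x (bits ξ ω)) (fun i => ξ (x + i) ω)) =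
      fun ω => (fun q : (Fin x → ZMod 2) × (Fin x → ZMod 2) => Φ (ext0 q.1) q.2) (U ω, V ω) := by
    funext ω
    rw [hcut]
  have e2 : (fun ω => Ex p (Φ (cut x (bits ξ ω)))) =
      fun ω => (fun u : Fin x → ZMod 2 => Ex p (Φ (ext0 u))) (U ω) := by
    funext ω
    rw [hcut]
  rw [e1, e2]
  obtain ⟨i1, j1⟩ := int_fin (P := P) (hUm.prodMk hVm)
    (fun q : (Fin x → ZMod 2) × (Fin x → ZMod 2) => Φ (ext0 q.1) q.2)
  obtain ⟨i2, j2⟩ := int_fin (P := P) hUm (fun u : Fin x → ZMod 2 => Ex p (Φ (ext0 u)))
  refine ⟨i1, i2, ?_⟩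
  rw [j1, j2, Fintype.sum_prod_type]
  refine sum_congr rfl fun u _ => ?_
  unfold Ex
  rw [mul_sum]
  refine sum_congr (by ext; simp) fun v _ => ?_
  have hu : P.real (U ⁻¹' {u}) = ∏ j ∈ range x, P.real {ω | ξ j ω = ext0 u j} := by
    rw [← prob_bits hi]
    congr 1
    ext ω
    simp only [Set.mem_preimage, Set.mem_singleton_iff, Set.mem_ofPred_eq]
    constructor
    · intro h j hj
      rw [← h]
      unfold ext0
      rw [dif_pos hj]
    · intro h
      funext i
      have := h i i.2
      unfold ext0 at this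
      rw [dif_pos i.2] at this
      exact this
  have huv : P.real ((fun ω => (U ω, V ω)) ⁻¹' {(u, v)}) =
      ∏ j ∈ range (x + x), P.real {ω | ξ j ω = if j < x then ext0 u j else ext0 v (j - x)} := by
    rw [← prob_bits hi]
    congr 1
    ext ω
    simp only [Set.mem_preimage, Set.mem_singleton_iff, Set.mem_ofPred_eq, Prod.mk.injEq]
    constructor
    · rintro ⟨h, h'⟩ j hj
      by_cases hjx : j < x
      · rw [if_pos hjx, ← h]
        unfold ext0
        rw [dif_pos hjx]
      · rw [if_neg hjx, ← h']
        unfold ext0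
        rw [dif_pos (by omega)]
        simp only [hV]
        congr 1
        omega
    · intro h
      constructor
      · funext i
        have := h i (by have := i.2; omega)
        rw [if_pos i.2] at this
        unfold ext0 at this
        rw [dif_pos i.2] at this
        exact this
      · funext i
        have := h (x + i) (by have := i.2; omega)
        rw [if_neg (by omega)] at this
        unfold ext0 at this
        rw [dif_pos (by have := i.2; omega)] at this
        simp only [hV]
        rw [this]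
        congr 1
        apply Fin.ext
        simp
  have hw : wt p v = ∏ j ∈ range x, P.real {ω | ξ (x + j) ω = ext0 v j} := by
    unfold wt
    rw [← Fin.prod_univ_eq_prod_range (fun j => P.real {ω | ξ (x + j) ω = ext0 v j}) x]
    refine prod_congr rfl fun i _ => ?_
    rw [compl_bit (hξ _)]
    have : ext0 v (i : ℕ) = v i := by
      unfold ext0
      rw [dif_pos i.2]
    rw [this]
  rw [huv, hu, hw, prod_range_add, mul_assoc]
  congr 1
  · refine prod_congr rfl fun j hj => ?_
    rw [if_pos (mem_range.1 hj)]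
  · congr 1
    refine prod_congr rfl fun j hj => ?_
    rw [if_neg (by omega), Nat.add_sub_cancel_left]

end Pool.Agent.D0H98.PS
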